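import Pool.Agent.H90.SY.Layer

set_option autoImplicit false

namespace Pool.H90SY

universe u

variable {V : Type u}

/-- The local conditions: no `K4`, no 4-wheel, no 5-wheel (all vertex links have girth at least 6). -/
structure LinkOK (G : SimpleGraph V) : Prop where
  k4 : ∀ a b c d : V, G.Adj a b → G.Adj a c → G.Adj a d → G.Adj b c → G.Adj b d → G.Adj c d →
    False
  w4 : ∀ z a b c d : V, G.Adj z a → G.Adj z b → G.Adj z c → G.Adj z d →
    G.Adj a b → G.Adj b c → G.Adj c d → G.Adj d a → a ≠ c → b ≠ d → False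
  w5 : ∀ z a b c d e : V, G.Adj z a → G.Adj z b → G.Adj z c → G.Adj z d → G.Adj z e →
    G.Adj a b → G.Adj b c → G.Adj c d → G.Adj d e → G.Adj e a →
    a ≠ c → a ≠ d → b ≠ d → b ≠ e → c ≠ e → False

/-- One elementary homotopy between lists of vertices: remove a backtrack `a b a`, or replace two
sides `a b c` of a triangle by the third one `a c`. -/
inductive HStep (G : SimpleGraph V) : List V → List V → Prop
  | back (l₁ l₂ : List V) (a b : V) : G.Adj a b →
      HStep G (l₁ ++ a :: b :: a :: l₂) (l₁ ++ a :: l₂)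
  | tri (l₁ l₂ : List V) (a b c : V) : G.Adj a b → G.Adj b c → G.Adj a c →
      HStep G (l₁ ++ a :: b :: c :: l₂) (l₁ ++ a :: c :: l₂)

/-- The flag complex of `G` is simply connected: every closed walk `a, ..., a` is homotopic to the
constant walk. -/
def SimplyConn (G : SimpleGraph V) : Prop :=
  ∀ (a : V) (l : List V), List.IsChain G.Adj (a :: l) → (a :: l).getLast? = some a →
    Relation.EqvGen (HStep G) (a :: l) [a]

/-- A level of the layered covering: its vertices, their images in `V`, the lateral adjacency and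
the images of the parents. -/
structure Lev (V : Type u) where
  Y : Type u
  ph : Y → V
  lat : Y → Y → Prop
  dn : Y → Set V

/-- `v` is an upper neighbour of `y` -/
def IsCand (G : SimpleGraph V) (L : Lev V) (y : L.Y) (v : V) : Prop :=
  G.Adj (L.ph y) v ∧ v ∉ L.dn y ∧ ∀ u : V, u ∈ L.dn y → ¬ G.Adj u v

/-- pairs (vertex of the level, upper neighbour) -/
def Cand (G : SimpleGraph V) (L : Lev V) : Type u := {p : L.Y × V // IsCand G L p.1 p.2}

/-- the identification of such pairs -/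
def rl (G : SimpleGraph V) (L : Lev V) (p q : Cand G L) : Prop :=
  p.1.2 = q.1.2 ∧ (p.1.1 = q.1.1 ∨ L.lat p.1.1 q.1.1)

/-- the next level -/
def nxt (G : SimpleGraph V) (L : Lev V) : Lev V where
  Y := Quot (rl G L)
  ph := Quot.lift (fun p => p.1.2) (fun _ _ h => h.1)
  lat := fun y z => ∃ p q : Cand G L, Quot.mk (rl G L) p = y ∧ Quot.mk (rl G L) q = z ∧
    p.1.1 = q.1.1 ∧ G.Adj p.1.2 q.1.2
  dn := fun y => {u | ∃ p : Cand G L, Quot.mk (rl G L) p = y ∧ L.ph p.1.1 = u}

/-- the bottom level -/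
def bot (x0 : V) : Lev V where
  Y := PUnit
  ph := fun _ => x0
  lat := fun _ _ => False
  dn := fun _ => ∅

/-- the invariants of a level -/
structure Good (G : SimpleGraph V) (L : Lev V) : Prop where
  lat_symm : ∀ y z : L.Y, L.lat y z → L.lat z y
  lat_adj : ∀ y z : L.Y, L.lat y z → G.Adj (L.ph y) (L.ph z)
  dn_adj : ∀ (y : L.Y) (d : V), d ∈ L.dn y → G.Adj (L.ph y) d
  dn_clique : ∀ (y : L.Y) (d e : V), d ∈ L.dn y → e ∈ L.dn y → d ≠ e → G.Adj d e
  lat_common : ∀ y z : L.Y, L.lat y z → ∃ d : V, d ∈ L.dn y ∧ d ∈ L.dn z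
  lat_exists : ∀ (y : L.Y) (v d : V), G.Adj (L.ph y) v → v ∉ L.dn y → d ∈ L.dn y → G.Adj d v →
    ∃ z : L.Y, L.lat y z ∧ L.ph z = v
  lat_unique : ∀ y z w : L.Y, L.lat y z → L.lat y w → L.ph z = L.ph w → z = w
  lat_not_dn : ∀ y z : L.Y, L.lat y z → L.ph z ∉ L.dn y

/-- the levels -/
def Lv (G : SimpleGraph V) (x0 : V) : ℕ → Lev V
  | 0 => bot x0
  | n + 1 => nxt G (Lv G x0 n)

/-- the layered covering -/
def YY (G : SimpleGraph V) (x0 : V) : Type u := Σ n : ℕ, (Lv G x0 n).Y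

/-- the covering map -/
def phi (G : SimpleGraph V) (x0 : V) (a : YY G x0) : V := (Lv G x0 a.1).ph a.2

/-- `z` (level `n`) is a parent of `y` (level `n + 1`) -/
def PR (G : SimpleGraph V) (L : Lev V) (z : L.Y) (y : (nxt G L).Y) : Prop :=
  ∃ p : Cand G L, Quot.mk (rl G L) p = y ∧ p.1.1 = z

/-- adjacency in the layered covering -/
inductive EE (G : SimpleGraph V) (x0 : V) : YY G x0 → YY G x0 → Prop
  | lat {n : ℕ} {y z : (Lv G x0 n).Y} : (Lv G x0 n).lat y z → EE G x0 ⟨n, y⟩ ⟨n, z⟩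
  | up {n : ℕ} {z : (Lv G x0 n).Y} {y : (Lv G x0 (n + 1)).Y} : PR G (Lv G x0 n) z y →
      EE G x0 ⟨n, z⟩ ⟨n + 1, y⟩
  | dn {n : ℕ} {z : (Lv G x0 n).Y} {y : (Lv G x0 (n + 1)).Y} : PR G (Lv G x0 n) z y →
      EE G x0 ⟨n + 1, y⟩ ⟨n, z⟩

/-- An abstract covering of the flag complex of `G`. -/
structure Cov (G : SimpleGraph V) (W : Type u) (f : W → V) (E : W → W → Prop) : Prop where
  symm : ∀ a b : W, E a b → E b a
  adj : ∀ a b : W, E a b → G.Adj (f a) (f b)
  ex : ∀ (a : W) (v : V), G.Adj (f a) v → ∃ b : W, E a b ∧ f b = v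
  uniq : ∀ a b c : W, E a b → E a c → f b = f c → b = c
  tri : ∀ a b c : W, E a b → E a c → G.Adj (f b) (f c) → E b c

end Pool.H90SY
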