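import Pool.Agent.H90.SY.LG.Defs

set_option autoImplicit false
set_option linter.unusedSimpArgs false

/-!
Proof: a `K4` on `a, b, c, d` gives a 3-cycle `b, c, d` in the link of `a`; the rims of the wheels are
cycles of length 4 and 5 in the link of `z`. Use `SimpleGraph.le_egirth`-type lemmas (the length of
every cycle is at least the extended girth) with explicit closed walks.
-/

namespace Pool.H90SY

universe u

variable {V : Type u}

private theorem girth_cyc3 {W : Type u} (H : SimpleGraph W) (h : 6 ≤ H.egirth) {a b c : W}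
    (hab : H.Adj a b) (hbc : H.Adj b c) (hca : H.Adj c a) : False := by
  have hw : (SimpleGraph.Walk.cons hab (SimpleGraph.Walk.cons hbc
      (SimpleGraph.Walk.cons hca SimpleGraph.Walk.nil))).IsCycle := by
    rw [SimpleGraph.Walk.cons_isCycle_iff]
    have h1 := hab.ne
    have h2 := hbc.ne
    have h3 := hca.ne
    constructor
    · simp [SimpleGraph.Walk.cons_isPath_iff, h2, h3, h1.symm]
    · simp [h1, h2, h3, h1.symm, h2.symm, h3.symm]
  have h4 := h.trans (SimpleGraph.egirth_le_length hw)
  simp only [SimpleGraph.Walk.length_cons, SimpleGraph.Walk.length_nil] at h4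
  norm_cast at h4

private theorem girth_cyc4 {W : Type u} (H : SimpleGraph W) (h : 6 ≤ H.egirth) {a b c d : W}
    (hab : H.Adj a b) (hbc : H.Adj b c) (hcd : H.Adj c d) (hda : H.Adj d a)
    (hac : a ≠ c) (hbd : b ≠ d) : False := by
  have hw : (SimpleGraph.Walk.cons hab (SimpleGraph.Walk.cons hbc
      (SimpleGraph.Walk.cons hcd (SimpleGraph.Walk.cons hda SimpleGraph.Walk.nil)))).IsCycle := by
    rw [SimpleGraph.Walk.cons_isCycle_iff]
    have h1 := hab.ne
    have h2 := hbc.ne
    have h3 := hcd.ne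
    have h4 := hda.ne
    constructor
    · simp [SimpleGraph.Walk.cons_isPath_iff, h2, h3, h4, h1.symm, hac.symm, hbd]
    · simp [h1, h2, h3, h4, h1.symm, h2.symm, h3.symm, h4.symm, hac, hbd, hac.symm, hbd.symm]
  have h4 := h.trans (SimpleGraph.egirth_le_length hw)
  simp only [SimpleGraph.Walk.length_cons, SimpleGraph.Walk.length_nil] at h4
  norm_cast at h4

private theorem girth_cyc5 {W : Type u} (H : SimpleGraph W) (h : 6 ≤ H.egirth) {a b c d e : W}
    (hab : H.Adj a b) (hbc : H.Adj b c) (hcd : H.Adj c d) (hde : H.Adj d e) (hea : H.Adj e a)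
    (hac : a ≠ c) (had : a ≠ d) (hbd : b ≠ d) (hbe : b ≠ e) (hce : c ≠ e) : False := by
  have hw : (SimpleGraph.Walk.cons hab (SimpleGraph.Walk.cons hbc
      (SimpleGraph.Walk.cons hcd (SimpleGraph.Walk.cons hde
        (SimpleGraph.Walk.cons hea SimpleGraph.Walk.nil))))).IsCycle := by
    rw [SimpleGraph.Walk.cons_isCycle_iff]
    have h1 := hab.ne
    have h2 := hbc.ne
    have h3 := hcd.ne
    have h4 := hde.ne
    have h5 := hea.ne
    constructor
    · simp [SimpleGraph.Walk.cons_isPath_iff, h2, h3, h4, h5, h1.symm, hac.symm, had.symm, hbd,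
        hbe, hce]
    · simp [h1, h2, h3, h4, h5, h1.symm, h2.symm, h3.symm, h4.symm, h5.symm, hac, had, hbd, hbe,
        hce, hac.symm, had.symm, hbd.symm, hbe.symm, hce.symm]
  have h4 := h.trans (SimpleGraph.egirth_le_length hw)
  simp only [SimpleGraph.Walk.length_cons, SimpleGraph.Walk.length_nil] at h4
  norm_cast at h4

theorem linkOK_of_girth (G : SimpleGraph V)
    (h : ∀ z : V, 6 ≤ (G.induce (G.neighborSet z)).egirth) : LinkOK G := by
  refine ⟨?_, ?_, ?_⟩
  · intro a b c d hab hac had hbc hbd hcd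
    exact girth_cyc3 (G.induce (G.neighborSet a)) (h a) (a := ⟨b, hab⟩) (b := ⟨c, hac⟩)
      (c := ⟨d, had⟩) hbc hcd hbd.symm
  · intro z a b c d ha hb hc hd hab hbc hcd hda hac hbd
    exact girth_cyc4 (G.induce (G.neighborSet z)) (h z) (a := ⟨a, ha⟩) (b := ⟨b, hb⟩)
      (c := ⟨c, hc⟩) (d := ⟨d, hd⟩) hab hbc hcd hda
      (fun e => hac (congrArg Subtype.val e)) (fun e => hbd (congrArg Subtype.val e))
  · intro z a b c d e ha hb hc hd he hab hbc hcd hde hea hac had hbd hbe hce
    exact girth_cyc5 (G.induce (G.neighborSet z)) (h z) (a := ⟨a, ha⟩) (b := ⟨b, hb⟩)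
      (c := ⟨c, hc⟩) (d := ⟨d, hd⟩) (e := ⟨e, he⟩) hab hbc hcd hde hea
      (fun e => hac (congrArg Subtype.val e)) (fun e => had (congrArg Subtype.val e))
      (fun e => hbd (congrArg Subtype.val e)) (fun e => hbe (congrArg Subtype.val e))
      (fun e => hce (congrArg Subtype.val e))

end Pool.H90SY
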