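import Pool.Agent.H90.SY.LG.Defs

set_option autoImplicit false

/-!
Proof. For `a : W` and a list `l = v0 :: v1 :: ... :: vk` with `f a = v0` which is a chain for `G.Adj`
there is exactly one list `a = b0, b1, ..., bk` with `E bi b(i+1)` and `f bi = vi` (fields `ex`,
`uniq`); let `Lift a l b` mean that its last element is `b` (define `Lift` as an inductive
predicate or by recursion on the list). `Lift` is invariant under `HStep` in both directions: the
lift of `a b a` returns to its starting point (`symm`, `uniq`), and the lift of `a b c` (a triangle)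
ends at the lift of `a c` (`tri`, `uniq`). So (a homotopy class of chains stays in the chains) by
`EqvGen`: if `l` is homotopic to `[v0]` then the lift of `l` at `a` ends at `a`.

Let `f a = f b`, with `E`-chains `w0 = p0, ..., pk = a` and `w0 = q0, ..., ql = b`. The list
`f p0, ..., f pk = f ql, ..., f q0` is a closed walk at `f w0`, so its lift at `w0` ends at `w0`. This
lift runs through `p0, ..., pk = a` and then from `a` along the images of the reversed second chain
to `w0`; the lift of the reversed second list starting at `b` also ends at `w0`. Reversing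
(uniqueness of lifts at `w0` of `f q0, ..., f ql`) gives `a = b`.
-/

namespace Pool.H90SY

universe u

variable {V : Type u}

/-- the lift of the list `l` starting at `a` (not in the list) ends at `c` -/
private def Lf {W : Type u} (f : W → V) (E : W → W → Prop) : W → List V → W → Prop
  | a, [], c => a = c
  | a, v :: l, c => ∃ b, E a b ∧ f b = v ∧ Lf f E b l c

private def LL {W : Type u} (f : W → V) (E : W → W → Prop) (a : W) : List V → W → Prop
  | [], _ => False
  | v :: l, c => f a = v ∧ Lf f E a l c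

private theorem Lf_append {W : Type u} {f : W → V} {E : W → W → Prop} (l₁ l₂ : List V) (a c : W) :
    Lf f E a (l₁ ++ l₂) c ↔ ∃ b, Lf f E a l₁ b ∧ Lf f E b l₂ c := by
  induction l₁ generalizing a with
  | nil => simp [Lf]
  | cons v l₁ ih =>
    simp only [List.cons_append, Lf, ih]
    constructor
    · rintro ⟨b, h1, h2, d, h3, h4⟩
      exact ⟨d, ⟨b, h1, h2, h3⟩, h4⟩
    · rintro ⟨d, ⟨b, h1, h2, h3⟩, h4⟩
      exact ⟨b, h1, h2, d, h3, h4⟩

private theorem Lf_uniq {G : SimpleGraph V} {W : Type u} {f : W → V} {E : W → W → Prop}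
    (hC : Cov G W f E) (l : List V) (a b c : W) (h1 : Lf f E a l b) (h2 : Lf f E a l c) :
    b = c := by
  induction l generalizing a with
  | nil =>
    simp only [Lf] at h1 h2
    rw [← h1, ← h2]
  | cons v l ih =>
    simp only [Lf] at h1 h2
    obtain ⟨d, hd1, hd2, hd3⟩ := h1
    obtain ⟨e, he1, he2, he3⟩ := h2
    have hde : d = e := hC.uniq a d e hd1 he1 (hd2.trans he2.symm)
    subst hde
    exact ih d hd3 he3

private theorem Lf_img {W : Type u} {f : W → V} {E : W → W → Prop}
    (l : List V) (a b a' b' : W) (h1 : Lf f E a l b) (h2 : Lf f E a' l b') (h : f a = f a') :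
    f b = f b' := by
  induction l generalizing a a' with
  | nil =>
    simp only [Lf] at h1 h2
    rw [← h1, ← h2, h]
  | cons v l ih =>
    simp only [Lf] at h1 h2
    obtain ⟨d, hd1, hd2, hd3⟩ := h1
    obtain ⟨e, he1, he2, he3⟩ := h2
    exact ih d e hd3 he3 (hd2.trans he2.symm)

private theorem LL_congr {W : Type u} {f : W → V} {E : W → W → Prop} {v : V} {X X' : List V}
    {c : W} (h : ∀ d : W, f d = v → (Lf f E d X c ↔ Lf f E d X' c)) (l : List V) (a : W) :
    LL f E a (l ++ v :: X) c ↔ LL f E a (l ++ v :: X') c := by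
  cases l with
  | nil =>
    simp only [List.nil_append, LL]
    constructor
    · rintro ⟨h1, h2⟩
      exact ⟨h1, (h a h1).1 h2⟩
    · rintro ⟨h1, h2⟩
      exact ⟨h1, (h a h1).2 h2⟩
  | cons w l =>
    simp only [List.cons_append, LL, Lf_append, Lf]
    constructor
    · rintro ⟨h1, b, h2, d, h3, h4, h5⟩
      exact ⟨h1, b, h2, d, h3, h4, (h d h4).1 h5⟩
    · rintro ⟨h1, b, h2, d, h3, h4, h5⟩
      exact ⟨h1, b, h2, d, h3, h4, (h d h4).2 h5⟩

private theorem LL_step {G : SimpleGraph V} {W : Type u} {f : W → V} {E : W → W → Prop}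
    (hC : Cov G W f E) {m m' : List V} (h : HStep G m m') (a c : W) :
    LL f E a m c ↔ LL f E a m' c := by
  cases h with
  | back l₁ l₂ x y hxy =>
    apply LL_congr
    intro d hd
    simp only [Lf]
    constructor
    · rintro ⟨b, h1, h2, e, h3, h4, h5⟩
      have : e = d := hC.uniq b e d h3 (hC.symm _ _ h1) (h4.trans hd.symm)
      rw [← this]
      exact h5
    · intro h5
      obtain ⟨b, h1, h2⟩ := hC.ex d y (by rw [hd]; exact hxy)
      exact ⟨b, h1, h2, d, hC.symm _ _ h1, hd, h5⟩
  | tri l₁ l₂ x y z hxy hyz hxz =>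
    apply LL_congr
    intro d hd
    simp only [Lf]
    constructor
    · rintro ⟨b, h1, h2, e, h3, h4, h5⟩
      exact ⟨e, hC.tri b d e (hC.symm _ _ h1) h3 (by rw [hd, h4]; exact hxz), h4, h5⟩
    · rintro ⟨e, h3, h4, h5⟩
      obtain ⟨b, h1, h2⟩ := hC.ex d y (by rw [hd]; exact hxy)
      exact ⟨b, h1, h2, e, hC.tri d b e h1 h3 (by rw [h2, h4]; exact hyz), h4, h5⟩

private theorem LL_eqv {G : SimpleGraph V} {W : Type u} {f : W → V} {E : W → W → Prop}
    (hC : Cov G W f E) {m m' : List V} (h : Relation.EqvGen (HStep G) m m') (a c : W) :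
    LL f E a m c ↔ LL f E a m' c := by
  induction h with
  | rel m m' h => exact LL_step hC h a c
  | refl m => exact Iff.rfl
  | symm m m' _ ih => exact ih.symm
  | trans m m' m'' _ _ ih1 ih2 => exact ih1.trans ih2

private theorem Lf_chain {G : SimpleGraph V} {W : Type u} {f : W → V} {E : W → W → Prop}
    (hC : Cov G W f E) (l l' : List V) (a b : W) (h : Lf f E a l b)
    (h' : List.IsChain G.Adj (f b :: l')) : List.IsChain G.Adj (f a :: (l ++ l')) := by
  induction l generalizing a with
  | nil =>
    simp only [Lf] at h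
    rw [h]
    exact h'
  | cons v l ih =>
    simp only [Lf] at h
    obtain ⟨d, h1, h2, h3⟩ := h
    have h4 := ih d h3
    rw [List.cons_append, List.isChain_cons_cons]
    rw [← h2]
    exact ⟨hC.adj _ _ h1, h4⟩

private theorem Lf_last {W : Type u} {f : W → V} {E : W → W → Prop}
    (l l' : List V) (a b : W) (h : Lf f E a l b) :
    (f a :: (l ++ l')).getLast? = (f b :: l').getLast? := by
  induction l generalizing a with
  | nil =>
    simp only [Lf] at h
    rw [h]
    rfl
  | cons v l ih =>
    simp only [Lf] at h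
    obtain ⟨d, h1, h2, h3⟩ := h
    have h4 := ih d h3
    rw [List.cons_append, List.getLast?_cons_cons, ← h2]
    exact h4

private theorem Lf_exists {G : SimpleGraph V} {W : Type u} {f : W → V} {E : W → W → Prop}
    (_hC : Cov G W f E) (a b : W) (h : Relation.ReflTransGen E a b) : ∃ l, Lf f E a l b := by
  induction h with
  | refl => exact ⟨[], rfl⟩
  | @tail b c _ hbc ih =>
    obtain ⟨l, hl⟩ := ih
    refine ⟨l ++ [f c], ?_⟩
    rw [Lf_append]
    exact ⟨b, hl, c, hbc, rfl, rfl⟩

private theorem Lf_rev {G : SimpleGraph V} {W : Type u} {f : W → V} {E : W → W → Prop}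
    (hC : Cov G W f E) (l : List V) (x y : W) (h : Lf f E x l y) :
    ∃ l', Lf f E y l' x ∧ ∀ y', f y' = f y → Lf f E y' l' x → y' = y := by
  induction l generalizing x with
  | nil =>
    simp only [Lf] at h
    refine ⟨[], h.symm, ?_⟩
    intro y' _ h2
    simp only [Lf] at h2
    rw [h2, h]
  | cons v l ih =>
    simp only [Lf] at h
    obtain ⟨b, h1, h2, h3⟩ := h
    obtain ⟨l', h4, h5⟩ := ih b h3
    refine ⟨l' ++ [f x], ?_, ?_⟩
    · rw [Lf_append]
      exact ⟨b, h4, x, hC.symm _ _ h1, rfl, rfl⟩
    · intro y' hy' h6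
      rw [Lf_append] at h6
      obtain ⟨b', h7, x', h8, h9, h10⟩ := h6
      simp only [Lf] at h10
      subst h10
      have h11 : f b' = f b := Lf_img l' y' b' y b h7 h4 hy'
      have h12 : b' = b := hC.uniq x' b' b (hC.symm _ _ h8) h1 h11
      subst h12
      exact h5 y' hy' h7

theorem cov_inj {G : SimpleGraph V} (hsc : SimplyConn G) {W : Type u} {f : W → V}
    {E : W → W → Prop} (hC : Cov G W f E) (w0 a b : W) (ha : Relation.ReflTransGen E w0 a)
    (hb : Relation.ReflTransGen E w0 b) (hab : f a = f b) : a = b := by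
  obtain ⟨lp, hp⟩ := Lf_exists (f := f) hC w0 a ha
  obtain ⟨lq, hq⟩ := Lf_exists (f := f) hC w0 b hb
  obtain ⟨l', h1, h2⟩ := Lf_rev hC lq w0 b hq
  have hch : List.IsChain G.Adj (f w0 :: (lp ++ l')) := by
    apply Lf_chain hC lp l' w0 a hp
    rw [hab]
    have h3 := Lf_chain hC l' [] b w0 h1 (by simp)
    rwa [List.append_nil] at h3
  have hlast : (f w0 :: (lp ++ l')).getLast? = some (f w0) := by
    rw [Lf_last lp l' w0 a hp, hab]
    have h3 := Lf_last l' [] b w0 h1
    rw [List.append_nil] at h3
    rw [h3]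
    rfl
  have h3 := (LL_eqv hC (hsc (f w0) (lp ++ l') hch hlast) w0 w0).2 ⟨rfl, rfl⟩
  obtain ⟨-, h4⟩ := h3
  rw [Lf_append] at h4
  obtain ⟨m, h5, h6⟩ := h4
  have h7 : m = a := Lf_uniq hC lp w0 m a h5 hp
  subst h7
  exact h2 m hab h6

end Pool.H90SY
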