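import Pool.Agent.H90.SY.Main
import Pool.Agent.H90.SY.LG.LayY
import Pool.Agent.H90.SY.LG.Girth

set_option autoImplicit false

namespace Pool.H90SY

universe u

variable {V : Type u}

/-- The graph `G` is the 1-skeleton of a two-dimensional complex of nonpositive curvature made of
equilateral triangles: either its flag complex is simply connected and the link of every vertex has
girth at least six, or `G` is a `K4`-free bridged graph. -/
def EqTri (G : SimpleGraph V) : Prop :=
  (SimplyConn G ∧ ∀ z : V, 6 ≤ (G.induce (G.neighborSet z)).egirth) ∨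
    (G.CliqueFree 4 ∧ Bridged G)

theorem eqTri_cover (G : SimpleGraph V) (hc : G.Connected) (h : EqTri G) :
    ∀ R : ℕ, 1 ≤ R → CoverAt G.dist 2 R (76 * R) := by
  rcases h with ⟨hs, hg⟩ | ⟨hK, hB⟩
  · obtain ⟨x0⟩ := hc.nonempty
    exact lay_cover (lay_of_sc G hc (linkOK_of_girth G hg) hs x0)
  · exact bridged_cover G hc hK hB

end Pool.H90SY
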