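import Pool.Agent.H90.SY.LG.Defs

set_option autoImplicit false

/-!
Proof. Write `y` for vertices of the level, `v` for upper neighbours; `(y,v)` is a candidate if
`IsCand G L y v`.

U1 (`cand_move`). If `(y,v)` is a candidate, `lat y z` and `ph z` is adjacent to `v`, then `(z,v)` is
a candidate. Let `d` be a common element of `dn y` and `dn z` (`lat_common`). `v ∉ dn z`: otherwise
`v` and `d` are both in `dn z`, `v ≠ d` since `v ∉ dn y`, so `d`, `v` adjacent (`dn_clique`), but `v` is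
not adjacent to `d ∈ dn y`. If `u ∈ dn z` is adjacent to `v`, then `u ≠ d`, and in the link of `ph z`
there is the 4-cycle `v, ph y, d, u` (`ph y` adjacent to `v` and to `d`, `d` adjacent to `u` by
`dn_clique`, `u` adjacent to `v`); `v ≠ d`, and `ph y ≠ u` because of `lat_not_dn z y`. Contradiction
to `w4`.

U2 (`cand_two`). If `(y,v)` is a candidate, `lat y z`, `lat y w`, and `ph z`, `ph w` are adjacent to `v`,
then `z = w`. Let `d` be common to `dn y, dn z` and `e` common to `dn y, dn w`. If `ph z = ph w` use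
`lat_unique`. Otherwise, if `d = e`: 4-cycle `v, ph z, d, ph w` in the link of `ph y` (`v ≠ d`,
`ph z ≠ ph w`), contradiction to `w4`. If `d ≠ e`: 5-cycle `v, ph z, d, e, ph w` in the link of `ph y`
(`v ∉ dn y`, `ph z, ph w ∉ dn y` by `lat_not_dn`), contradiction to `w5`.

U3 (`mk_eq`). `Quot.mk p = Quot.mk q ↔ rl p q`: `rl` is reflexive, symmetric and (by U2) transitive.

The fields of `Good (nxt L)`, for `y' = [(y,v)]`:
* `lat_symm`, `lat_adj`, `dn_adj`: immediate. `dn_clique`: two candidates `(y,v), (z,v)` of the same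
  class with `ph y ≠ ph z` have `lat y z` (U3), so `ph y`, `ph z` are adjacent.
* `lat_common`: `lat [(y,v)] [(y,w)]` has the common element `ph y`.
* `lat_exists`: `w` adjacent to `v`, `w ∉ dn y'`, `w` adjacent to some `d ∈ dn y'`; `d = ph y` for a
  representative `(y,v)`. `(y,w)` is a candidate: `w ∉ dn y` since `v` is not adjacent to elements
  of `dn y`; if `u ∈ dn y` is adjacent to `w` then by `lat_exists` of `L` there is `z` with `lat y z`,
  `ph z = w`, by U1 `(z,v)` is a candidate, it is related to `(y,v)`, so `w = ph z ∈ dn y'`,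
  contradiction. Take `[(y,w)]`.
* `lat_unique`: `lat y' z1`, `lat y' z2` with images `w`: representatives `(y1,v), (y1,w)` and
  `(y2,v), (y2,w)` with `(y1,v)`, `(y2,v)` in the class `y'`; by U3 `y1 = y2` or `lat y1 y2`, so
  `(y1,w)`, `(y2,w)` are related.
* `lat_not_dn`: `lat [(y,v)] [(y,w)]`, suppose `w = ph z`, `(z,v)` related to `(y,v)`. `z = y`: `ph y`
  adjacent to itself. `lat y z`: the common element `d` of `dn y`, `dn z` is adjacent to `ph z = w`,
  but `(y,w)` is a candidate.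
-/

namespace Pool.H90SY

universe u

variable {V : Type u}

theorem cand_move {G : SimpleGraph V} (H : LinkOK G) {L : Lev V} (hL : Good G L) {y z : L.Y}
    {v : V} (hc : IsCand G L y v) (hl : L.lat y z) (ha : G.Adj (L.ph z) v) : IsCand G L z v := by
  obtain ⟨d, hdy, hdz⟩ := hL.lat_common y z hl
  have hvd : v ≠ d := fun h => hc.2.1 (h ▸ hdy)
  refine ⟨ha, fun hvz => hc.2.2 d hdy (hL.dn_clique z d v hdz hvz hvd.symm), fun u hu huv => ?_⟩
  have hud : d ≠ u := fun h => hc.2.2 d hdy (h ▸ huv)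
  refine H.w4 (L.ph z) v (L.ph y) d u ha (hL.lat_adj y z hl).symm (hL.dn_adj z d hdz)
    (hL.dn_adj z u hu) hc.1.symm (hL.dn_adj y d hdy) (hL.dn_clique z d u hdz hu hud) huv hvd ?_
  intro h
  exact hL.lat_not_dn z y (hL.lat_symm y z hl) (h ▸ hu)

theorem cand_two {G : SimpleGraph V} (H : LinkOK G) {L : Lev V} (hL : Good G L) {y z w : L.Y}
    {v : V} (hc : IsCand G L y v) (hz : L.lat y z) (hw : L.lat y w) (haz : G.Adj (L.ph z) v)
    (haw : G.Adj (L.ph w) v) : z = w := by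
  obtain ⟨d, hdy, hdz⟩ := hL.lat_common y z hz
  obtain ⟨e, hey, hew⟩ := hL.lat_common y w hw
  have hvd : v ≠ d := fun h => hc.2.1 (h ▸ hdy)
  have hve : v ≠ e := fun h => hc.2.1 (h ▸ hey)
  by_cases hzw : L.ph z = L.ph w
  · exact hL.lat_unique y z w hz hw hzw
  · exfalso
    have hyz := hL.lat_adj y z hz
    have hyw := hL.lat_adj y w hw
    by_cases hde : d = e
    · subst hde
      exact H.w4 (L.ph y) v (L.ph z) d (L.ph w) hc.1 hyz (hL.dn_adj y d hdy) hyw haz.symm
        (hL.dn_adj z d hdz) (hL.dn_adj w d hew).symm haw hvd hzw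
    · exact H.w5 (L.ph y) v (L.ph z) d e (L.ph w) hc.1 hyz (hL.dn_adj y d hdy)
        (hL.dn_adj y e hey) hyw haz.symm (hL.dn_adj z d hdz) (hL.dn_clique y d e hdy hey hde)
        (hL.dn_adj w e hew).symm haw hvd hve (fun h => hL.lat_not_dn y z hz (h ▸ hey)) hzw
        (fun h => hL.lat_not_dn y w hw (h ▸ hdy))

theorem mk_eq {G : SimpleGraph V} (H : LinkOK G) {L : Lev V} (hL : Good G L) (p q : Cand G L) :
    Quot.mk (rl G L) p = Quot.mk (rl G L) q ↔ rl G L p q := by
  have he : Equivalence (rl G L) := by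
    refine ⟨fun p => ⟨rfl, Or.inl rfl⟩, fun {p q} h => ⟨h.1.symm, ?_⟩, fun {p q r} h h' =>
      ⟨h.1.trans h'.1, ?_⟩⟩
    · rcases h.2 with h2 | h2
      · exact Or.inl h2.symm
      · exact Or.inr (hL.lat_symm _ _ h2)
    · rcases h.2 with h2 | h2
      · rw [h2]
        exact h'.2
      · rcases h'.2 with h3 | h3
        · rw [← h3]
          exact Or.inr h2
        · left
          exact cand_two H hL q.2 (hL.lat_symm _ _ h2) h3 (h.1 ▸ p.2.1) (h'.1 ▸ r.2.1)
  constructor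
  · intro h
    exact (he.eqvGen_iff).1 (Quot.eqvGen_exact h)
  · exact fun h => Quot.sound h

theorem good_bot {G : SimpleGraph V} (x0 : V) : Good G (bot x0) where
  lat_symm _ _ h := h.elim
  lat_adj _ _ h := h.elim
  dn_adj _ _ h := h.elim
  dn_clique _ _ _ h := h.elim
  lat_common _ _ h := h.elim
  lat_exists _ _ _ _ _ h := h.elim
  lat_unique _ _ _ h := h.elim
  lat_not_dn _ _ h := h.elim

theorem good_nxt {G : SimpleGraph V} (H : LinkOK G) {L : Lev V} (hL : Good G L) :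
    Good G (nxt G L) := by
  constructor
  · rintro _ _ ⟨p, q, rfl, rfl, h1, h2⟩
    exact ⟨q, p, rfl, rfl, h1.symm, h2.symm⟩
  · rintro _ _ ⟨p, q, rfl, rfl, h1, h2⟩
    exact h2
  · rintro _ _ ⟨p, rfl, rfl⟩
    exact p.2.1.symm
  · rintro y _ _ ⟨p, hp, rfl⟩ ⟨q, hq, rfl⟩ hne
    rcases ((mk_eq H hL p q).1 (hp.trans hq.symm)).2 with h | h
    · exact absurd (congrArg L.ph h) hne
    · exact hL.lat_adj _ _ h
  · rintro _ _ ⟨p, q, rfl, rfl, h1, h2⟩
    exact ⟨L.ph p.1.1, ⟨p, rfl, rfl⟩, ⟨q, rfl, congrArg L.ph h1.symm⟩⟩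
  · rintro _ w _ hyw hwn ⟨p, rfl, rfl⟩ hdw
    have hyw' : G.Adj p.1.2 w := hyw
    have hw1 : w ∉ L.dn p.1.1 := fun h => p.2.2.2 w h hyw'.symm
    have hcand : IsCand G L p.1.1 w := by
      refine ⟨hdw, hw1, fun u hu huw => ?_⟩
      obtain ⟨z, hz1, hz2⟩ := hL.lat_exists p.1.1 w u hdw hw1 hu huw
      have hm : IsCand G L z p.1.2 := cand_move H hL p.2 hz1 (by rw [hz2]; exact hyw'.symm)
      apply hwn
      refine ⟨⟨(z, p.1.2), hm⟩, Quot.sound ⟨rfl, Or.inr (hL.lat_symm _ _ hz1)⟩, hz2⟩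
    exact ⟨Quot.mk _ ⟨(p.1.1, w), hcand⟩, ⟨p, ⟨(p.1.1, w), hcand⟩, rfl, rfl, rfl, hyw'⟩, rfl⟩
  · rintro y _ _ ⟨p1, q1, hp1, rfl, h1, g1⟩ ⟨p2, q2, hp2, rfl, h2, g2⟩ hph
    apply Quot.sound
    refine ⟨hph, ?_⟩
    rw [← h1, ← h2]
    exact ((mk_eq H hL p1 p2).1 (hp1.trans hp2.symm)).2
  · rintro _ _ ⟨p, q, rfl, rfl, h1, h2⟩ ⟨p', hp', h3⟩
    have h3' : L.ph p'.1.1 = q.1.2 := h3
    have hq := q.2
    rw [← h1] at hq
    rcases ((mk_eq H hL p' p).1 hp').2 with h | h
    · rw [h] at h3'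
      exact G.ne_of_adj hq.1 h3'
    · obtain ⟨d, hd1, hd2⟩ := hL.lat_common _ _ h
      have h4 := hL.dn_adj _ d hd1
      rw [h3'] at h4
      exact hq.2.2 d hd2 h4.symm

theorem good_Lv {G : SimpleGraph V} (H : LinkOK G) (x0 : V) (n : ℕ) : Good G (Lv G x0 n) := by
  induction n with
  | zero => exact good_bot x0
  | succ n ih => exact good_nxt H ih

end Pool.H90SY
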